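import Pool.Agent.H14.ENR.Stmts4

/-!
Row GNU of board enr: the nonsplit torus of `PSL(2,F)` has odd order if `-1` is a square.
-/

set_option autoImplicit false

namespace Pool.ENR

open Pool.Agent.H81.ENG Pool.Agent.H55.NEU

/-- the nonsplit torus -/
def gnuG {F : Type} [Field F] (ν : F) : Subgroup (PS F) where
  carrier := {g | ∃ M : SL2 F, M 1 1 = M 0 0 ∧ M 0 1 = ν * M 1 0 ∧ pr M = g}
  one_mem' := by
    refine ⟨1, rfl, ?_, map_one _⟩
    show (0 : F) = ν * 0
    rw [mul_zero]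
  mul_mem' := by
    rintro _ _ ⟨M, hM1, hM2, rfl⟩ ⟨N, hN1, hN2, rfl⟩
    refine ⟨M * N, ?_, ?_, map_mul _ _ _⟩
    · rw [mul_11, mul_00, hM1, hN1, hM2, hN2]
      ring
    · rw [mul_01, mul_10, hM1, hN1, hM2, hN2]
      ring
  inv_mem' := by
    rintro _ ⟨M, hM1, hM2, rfl⟩
    refine ⟨M⁻¹, ?_, ?_, map_inv _ _⟩
    · rw [eq_mk2 M, mk2_inv]
      simp only [mk2_00, mk2_11]
      exact hM1.symm
    · rw [eq_mk2 M, mk2_inv]
      simp only [mk2_01, mk2_10]
      rw [hM2]
      ring

theorem gnu_thm : GNUStmt := by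
  intro F _ _ i ν h2 hi hν
  refine ⟨gnuG ν, fun g => Iff.rfl, ?_, ?_⟩
  · intro hdvd
    have : Fact (Nat.Prime 2) := ⟨Nat.prime_two⟩
    obtain ⟨⟨g, M, hM1, hM2, hMg⟩, hg⟩ := exists_prime_orderOf_dvd_card' (G := gnuG ν) 2 hdvd
    have hg1 : g ≠ 1 := by
      intro h
      have h1 : (⟨g, M, hM1, hM2, hMg⟩ : gnuG ν) = 1 := Subtype.ext h
      rw [h1, orderOf_one] at hg
      exact absurd hg (by norm_num)
    have hgg : pr (M * M) = pr (1 : SL2 F) := by
      have h1 := pow_orderOf_eq_one (⟨g, M, hM1, hM2, hMg⟩ : gnuG ν)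
      rw [hg, pow_two] at h1
      have h3 : g * g = 1 := congrArg Subtype.val h1
      rw [map_mul, hMg, h3, map_one]
    obtain ⟨r, hr, hMM⟩ := pr_eq_iff.1 hgg
    have hr0 : r ≠ 0 := by
      intro h
      rw [h, mul_zero] at hr
      exact zero_ne_one hr
    have h10 : (0 : F) = r * (M * M) 1 0 := hMM 1 0
    rw [mul_10, hM1] at h10
    have hd := sl_det M
    rw [hM1, hM2] at hd
    have h3 : M 0 0 * M 1 0 = 0 := by
      have h4 : (2 * r) * (M 0 0 * M 1 0) = 0 := by linear_combination -h10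
      rcases mul_eq_zero.1 h4 with h5 | h5
      · rcases mul_eq_zero.1 h5 with h6 | h6
        · exact absurd h6 h2
        · exact absurd h6 hr0
      · exact h5
    rcases mul_eq_zero.1 h3 with h4 | h4
    · rw [h4] at hd
      have h5 : M 1 0 ≠ 0 := by
        intro h6
        rw [h6] at hd
        simp at hd
      apply hν
      refine ⟨i / M 1 0, ?_⟩
      rw [div_mul_div_comm, hi, eq_div_iff (mul_ne_zero h5 h5)]
      linear_combination -hd
    · rw [h4] at hd
      apply hg1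
      rw [← hMg, ← map_one (pr (F := F)), pr_eq_iff]
      have h5 : M 0 0 * M 0 0 = 1 := by linear_combination hd
      refine ⟨M 0 0, h5, ?_⟩
      intro a b
      fin_cases a <;> fin_cases b
      · change (1 : F) = M 0 0 * M 0 0
        exact h5.symm
      · change (0 : F) = M 0 0 * M 0 1
        rw [hM2, h4]
        ring
      · change (0 : F) = M 0 0 * M 1 0
        rw [h4]
        ring
      · change (1 : F) = M 0 0 * M 1 1
        rw [hM1]
        exact h5.symm
  · have hν1 : 1 - ν ≠ 0 := by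
      intro h
      apply hν
      refine ⟨1, ?_⟩
      linear_combination -h
    refine ⟨mk2 ((1 + ν) / (1 - ν)) (ν * (2 / (1 - ν))) (2 / (1 - ν)) ((1 + ν) / (1 - ν)) ?_,
      rfl, rfl, ?_⟩
    · field_simp
      ring
    · show 2 / (1 - ν) ≠ 0
      exact div_ne_zero h2 hν1

end Pool.ENR
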