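import Pool.Agent.H36.ENR.Stmts2

/-!
Row NSP of board enr: a dihedral pair in `PSL(2,q)` for odd primes dividing `q + 1`.
-/

set_option autoImplicit false

namespace Pool.ENR

open Pool.Agent.H81.ENG Pool.Agent.H55.NEU

theorem nsp_hh_one {K : Type*} [Field K] {l : Kˣ} (h : hh l = (1 : SL2 K)) : l = 1 := by
  have h1 : (hh l : SL2 K) 0 0 = (1 : SL2 K) 0 0 := by rw [h]
  have h2 : (l : K) = 1 := h1
  exact Units.ext h2

theorem nsp_sq {F : Type*} [Field F] {N : SL2 F} (h : pr N = 1) : N * N = 1 := by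
  rw [← map_one (pr (F := F)), pr_eq_iff] at h
  obtain ⟨r, hr, hN⟩ := h
  have h2 : ∀ i j, N i j = r * (1 : SL2 F) i j := by
    intro i j
    rw [hN i j, ← mul_assoc, hr, one_mul]
  have h00 : N 0 0 = r := by
    rw [h2 0 0]
    exact mul_one r
  have h01 : N 0 1 = 0 := by
    rw [h2 0 1]
    exact mul_zero r
  have h10 : N 1 0 = 0 := by
    rw [h2 1 0]
    exact mul_zero r
  have h11 : N 1 1 = r := by
    rw [h2 1 1]
    exact mul_one r
  apply sl_ext
  · rw [mul_00, h00, h01, h10, hr]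
    show (1 : F) + 0 * 0 = 1
    ring
  · rw [mul_01, h00, h01, h11]
    show r * 0 + 0 * r = 0
    ring
  · rw [mul_10, h10, h00, h11]
    show 0 * r + r * 0 = 0
    ring
  · rw [mul_11, h10, h01, h11, hr]
    show 0 * 0 + (1 : F) = 1
    ring

theorem nsp_thm (h1 : NRMStmt) : NSPStmt := by
  intro F _ _ p r f a hp hr _ hq hp2 hpr ha hdvd
  have hpF : (p : F) ≠ 0 := by
    intro h0
    have h2 : r ∣ p := (CharP.cast_eq_zero_iff F r p).1 h0
    exact hpr ((Nat.prime_dvd_prime_iff_eq hr.out hp.out).1 h2).symm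
  have hne : NeZero ((p ^ a : ℕ) : F) := ⟨by
    rw [Nat.cast_pow]; exact pow_ne_zero _ hpF⟩
  obtain ⟨lam, hlam⟩ := HasEnoughRootsOfUnity.exists_primitiveRoot (AlgebraicClosure F) (p ^ a)
  have hK : CharP (AlgebraicClosure F) r :=
    charP_of_injective_algebraMap (algebraMap F (AlgebraicClosure F)).injective r
  have hl0 : lam ≠ 0 := hlam.ne_zero (pow_pos hp.out.pos a).ne'
  have hcase : lam ^ Nat.card F = lam⁻¹ := by
    have h5 : lam ^ (Nat.card F + 1) = 1 := (hlam.pow_eq_one_iff_dvd _).2 hdvd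
    rw [pow_succ] at h5
    exact eq_inv_of_mul_eq_one_left h5
  have hfixed : (lam + lam⁻¹) ^ Nat.card F = lam + lam⁻¹ := by
    have h3 : (lam + lam⁻¹) ^ Nat.card F = lam ^ Nat.card F + (lam⁻¹) ^ Nat.card F := by
      rw [hq, add_pow_char_pow]
    rw [h3, inv_pow, hcase, inv_inv, add_comm]
  obtain ⟨t, ht⟩ := fixed_mem (lam + lam⁻¹) hfixed
  have hsub : lam - lam⁻¹ ≠ 0 := by
    intro h3
    have h4 : lam ^ 2 = 1 := by
      have h5 : lam = lam⁻¹ := sub_eq_zero.1 h3
      rw [pow_two]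
      nth_rewrite 2 [h5]
      exact mul_inv_cancel₀ hl0
    have h5 := hlam.dvd_of_pow_eq_one 2 h4
    have h6 : p ∣ 2 := (dvd_pow_self p (by omega)).trans h5
    exact hp2 ((Nat.prime_dvd_prime_iff_eq hp.out Nat.prime_two).1 h6)
  have ht4 : t * t ≠ 4 := by
    intro h
    have h2 := congrArg (algebraMap F (AlgebraicClosure F)) h
    rw [map_mul, ht, map_ofNat] at h2
    have h3 : (lam - lam⁻¹) * (lam - lam⁻¹) = 0 := by
      have h4 : lam * lam⁻¹ = 1 := mul_inv_cancel₀ hl0
      linear_combination h2 - 4 * h4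
    rcases mul_eq_zero.1 h3 with h4 | h4 <;> exact hsub h4
  -- the matrix
  set M : SL2 F := mk2 0 (-1) 1 t (by ring) with hM
  let j : SL2 F →* SL2 (AlgebraicClosure F) :=
    Matrix.SpecialLinearGroup.map (algebraMap F (AlgebraicClosure F))
  have hj : Function.Injective j := by
    intro A B hAB
    have h3 : ∀ i k, algebraMap F (AlgebraicClosure F) (A i k) =
        algebraMap F (AlgebraicClosure F) (B i k) := by
      intro i k
      exact congrArg (fun C : SL2 (AlgebraicClosure F) => C i k) hAB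
    apply Matrix.SpecialLinearGroup.ext
    intro i k
    exact (algebraMap F (AlgebraicClosure F)).injective (h3 i k)
  let l : (AlgebraicClosure F)ˣ := Units.mk0 lam hl0
  have hlinv : ((l⁻¹ : (AlgebraicClosure F)ˣ) : AlgebraicClosure F) = lam⁻¹ :=
    Units.val_inv_eq_inv_val l
  have hl : (l : AlgebraicClosure F) - ((l⁻¹ : (AlgebraicClosure F)ˣ) : AlgebraicClosure F)
      ≠ 0 := by
    rw [hlinv]
    exact hsub
  obtain ⟨P, hP⟩ := comp_diag l hl
  have h3 : j M = P * hh l * P⁻¹ := by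
    rw [← hP]
    apply sl_ext
    · change algebraMap F (AlgebraicClosure F) 0 = 0
      exact map_zero _
    · change algebraMap F (AlgebraicClosure F) (-1) = -1
      rw [map_neg, map_one]
    · change algebraMap F (AlgebraicClosure F) 1 = 1
      exact map_one _
    · change algebraMap F (AlgebraicClosure F) t = _
      rw [ht]
      change lam + lam⁻¹ = lam + ((l⁻¹ : (AlgebraicClosure F)ˣ) : AlgebraicClosure F)
      rw [hlinv]
  have hjpow : ∀ n : ℕ, j (M ^ n) = P * hh (l ^ n) * P⁻¹ := by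
    intro n
    rw [map_pow, h3, conj_pow, hh_pow]
  have hhone : hh (1 : (AlgebraicClosure F)ˣ) = 1 := by
    have := hh_pow (1 : (AlgebraicClosure F)ˣ) 0
    rw [pow_zero, pow_zero] at this
    exact this.symm
  have hMone : ∀ n : ℕ, M ^ n = 1 ↔ p ^ a ∣ n := by
    intro n
    constructor
    · intro h
      have h4 := hjpow n
      rw [h, map_one] at h4
      have h5 : hh (l ^ n) = 1 := by
        have h6 : P⁻¹ * 1 * P = P⁻¹ * (P * hh (l ^ n) * P⁻¹) * P := by rw [← h4]
        have h7 : P⁻¹ * (P * hh (l ^ n) * P⁻¹) * P = hh (l ^ n) := by group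
        rw [h7, mul_one, inv_mul_cancel] at h6
        exact h6.symm
      have h6 := nsp_hh_one h5
      have h7 := congrArg (fun u : (AlgebraicClosure F)ˣ => (u : AlgebraicClosure F)) h6
      change ((l ^ n : (AlgebraicClosure F)ˣ) : AlgebraicClosure F) = 1 at h7
      rw [Units.val_pow_eq_pow_val] at h7
      exact hlam.dvd_of_pow_eq_one n h7
    · intro h
      apply hj
      rw [hjpow n, map_one]
      have h5 : l ^ n = 1 := by
        apply Units.ext
        rw [Units.val_pow_eq_pow_val]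
        exact (hlam.pow_eq_one_iff_dvd n).2 h
      rw [h5, hhone, mul_one, mul_inv_cancel]
  have hord : orderOf (pr M) = p ^ a := by
    obtain ⟨a', rfl⟩ : ∃ a', a = a' + 1 := ⟨a - 1, by omega⟩
    apply orderOf_eq_prime_pow
    · intro h
      rw [← map_pow] at h
      have h4 := nsp_sq h
      rw [← pow_add] at h4
      have h5 := (hMone _).1 h4
      have h6 : p ^ a' + p ^ a' = p ^ a' * 2 := by ring
      rw [h6, pow_succ] at h5
      have h7 : p ∣ 2 := Nat.dvd_of_mul_dvd_mul_left (pow_pos hp.out.pos a') h5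
      exact hp2 ((Nat.prime_dvd_prime_iff_eq hp.out Nat.prime_two).1 h7)
    · rw [← map_pow, (hMone _).2 dvd_rfl, map_one]
  obtain ⟨x, z, hxz⟩ := h1 F t (-1) ht4
  refine ⟨t, pr (mk2 x (t * x + z) z (-x) (by linear_combination -hxz)), ht4, hord, ?_⟩
  rw [← map_mul, ← map_inv, ← map_inv, ← map_mul, mk2_inv, mk2_inv, mk2_mul, mk2_mul]
  apply congrArg
  apply mk2_congr
  · linear_combination (-t) * hxz
  · linear_combination (-1 : F) * hxz
  · linear_combination hxz
  · ring

end Pool.ENR
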