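import Pool.Agent.H29.ENR.Stmts3

/-!
Row UN3 of board enr: the affine count with operators.
-/

set_option autoImplicit false

namespace Pool.ENR

open Pool.Agent.H81.ENG

section

variable {B : Type} [Group B]

theorem lin_part_ops (s : MulAut B) (N : Subgroup B) [hN : N.Normal]
    (hcomm : ∀ a ∈ N, ∀ b ∈ N, a * b = b * a) (hsN : ∀ a ∈ N, s a ∈ N)
    {ι : Type} (ψ : ι → N →* N)
    (h1 : ∀ (i : ι) (x y : N), (y : B) = s x → ((ψ i y : N) : B) = s (ψ i x : N))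
    (h2 : ∀ (i : ι) (g : B) (x y : N), (y : B) = g * x * g⁻¹ →
      ((ψ i y : N) : B) = g * (ψ i x : N) * g⁻¹)
    {z : B} (hzN : z ∈ N) (hsz : s z = z) (ξ : B) (j : ℕ) :
    ∃ a : N →* N, (∀ n : N, (ef s)^[j] ((n : B) * ξ) = (a n : B) * (ef s)^[j] ξ) ∧
      s (a ⟨z, hzN⟩ : B) = (a ⟨z, hzN⟩ : B) ∧ (0 < j → a ⟨z, hzN⟩ = 1) ∧
      ∀ i x, a (ψ i x) = ψ i (a x) := by
  induction j with
  | zero => exact ⟨MonoidHom.id _, fun n => rfl, hsz, fun h => absurd h (lt_irrefl 0),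
      fun i x => rfl⟩
  | succ j ih =>
    obtain ⟨a, ha, hz, -, hψ⟩ := ih
    set c := (ef s)^[j] ξ with hc
    have hmem : ∀ n : N, c⁻¹ * (((a n : B))⁻¹ * s (a n : B)) * c ∈ N := by
      intro n
      have h1 : ((a n : B))⁻¹ * s (a n : B) ∈ N :=
        N.mul_mem (N.inv_mem (a n).2) (hsN _ (a n).2)
      have h2 := hN.conj_mem _ h1 c⁻¹
      rwa [inv_inv] at h2
    refine ⟨{ toFun := fun n => ⟨c⁻¹ * (((a n : B))⁻¹ * s (a n : B)) * c, hmem n⟩
              map_one' := ?_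
              map_mul' := ?_ }, ?_, ?_, ?_, ?_⟩
    · apply Subtype.ext
      simp
    · intro n m
      apply Subtype.ext
      show c⁻¹ * (((a (n * m) : N) : B)⁻¹ * s ((a (n * m) : N) : B)) * c = _ * _
      rw [map_mul]
      push_cast
      have h1 : ((a n : B))⁻¹ * s (a n : B) ∈ N :=
        N.mul_mem (N.inv_mem (a n).2) (hsN _ (a n).2)
      have h2 := hcomm _ (N.inv_mem (a m).2) _ h1
      rw [map_mul, mul_inv_rev]
      calc c⁻¹ * (((a m : B))⁻¹ * ((a n : B))⁻¹ * (s (a n : B) * s (a m : B))) * c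
          = c⁻¹ * ((((a m : B))⁻¹ * (((a n : B))⁻¹ * s (a n : B))) * s (a m : B)) * c := by group
        _ = c⁻¹ * (((((a n : B))⁻¹ * s (a n : B)) * ((a m : B))⁻¹) * s (a m : B)) * c := by rw [h2]
        _ = (c⁻¹ * (((a n : B))⁻¹ * s (a n : B)) * c) *
            (c⁻¹ * (((a m : B))⁻¹ * s (a m : B)) * c) := by group
    · intro n
      rw [Function.iterate_succ_apply', Function.iterate_succ_apply', ha, ← hc]
      show ((a n : B) * c)⁻¹ * s ((a n : B) * c) =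
        (c⁻¹ * (((a n : B))⁻¹ * s (a n : B)) * c) * (c⁻¹ * s c)
      rw [map_mul]
      group
    · show s (c⁻¹ * (((a ⟨z, hzN⟩ : N) : B)⁻¹ * s ((a ⟨z, hzN⟩ : N) : B)) * c) =
        c⁻¹ * (((a ⟨z, hzN⟩ : N) : B)⁻¹ * s ((a ⟨z, hzN⟩ : N) : B)) * c
      rw [hz]
      simp
    · intro _
      apply Subtype.ext
      show c⁻¹ * (((a ⟨z, hzN⟩ : N) : B)⁻¹ * s ((a ⟨z, hzN⟩ : N) : B)) * c = 1
      rw [hz]
      simp
    · intro i x
      apply Subtype.ext
      show c⁻¹ * (((a (ψ i x) : N) : B)⁻¹ * s ((a (ψ i x) : N) : B)) * c =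
        ((ψ i ⟨c⁻¹ * (((a x : B))⁻¹ * s (a x : B)) * c, hmem x⟩ : N) : B)
      rw [hψ i x]
      have k1 := h2 i c⁻¹ ((a x)⁻¹ * ⟨s (a x : B), hsN _ (a x).2⟩)
        ⟨c⁻¹ * (((a x : B))⁻¹ * s (a x : B)) * c, hmem x⟩ (by
          rw [inv_inv]
          rfl)
      have k2 := h1 i (a x) ⟨s (a x : B), hsN _ (a x).2⟩ rfl
      rw [k1, inv_inv, map_mul, map_inv, Subgroup.coe_mul, Subgroup.coe_inv, k2]

end

theorem un3_thm : UN3Stmt := by
  intro B _ S N hN p μ ι ψ hp hcomm hsN hsN' hSp hψS hψc v hv hv1 hSv hA ξ r hr hrel hfix d hL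
  by_contra hnd
  obtain ⟨a, ha, -, haz, haψ⟩ := lin_part_ops S N hcomm hsN ψ hψS hψc hv hSv ξ r
  have haz := haz hr
  set u0 : N := ⟨S⁻¹ ((ef S)^[r] ξ) * ξ⁻¹, by
    have := hsN' _ hrel
    rwa [map_mul, map_inv, MulAut.inv_apply_self] at this⟩ with hu0
  let a' : N →* N :=
    { toFun := fun n => ⟨S⁻¹ (a n : B), hsN' _ (a n).2⟩
      map_one' := by apply Subtype.ext; simp
      map_mul' := by intro x y; apply Subtype.ext; simp }
  have ha' : ∀ n, ((a' n : N) : B) = S⁻¹ (a n : B) := fun n => rfl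
  let φ : N → N := fun n => a' n * u0
  let Φ : B → B := fun x => S⁻¹ ((ef S)^[r] x)
  have hΦφ : ∀ n : N, Φ ((n : B) * ξ) = (φ n : B) * ξ := by
    intro n
    show S⁻¹ ((ef S)^[r] ((n : B) * ξ)) = (S⁻¹ (a n : B) * (S⁻¹ ((ef S)^[r] ξ) * ξ⁻¹)) * ξ
    rw [ha, map_mul]
    group
  have hΦφk : ∀ (k : ℕ) (n : N), Φ^[k] ((n : B) * ξ) = (φ^[k] n : B) * ξ := by
    intro k
    induction k with
    | zero => intro n; rfl
    | succ k ih => intro n; rw [Function.iterate_succ_apply, hΦφ, ih, Function.iterate_succ_apply]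
  have hΦk : ∀ (k : ℕ) (x : B), Φ^[k] x = (S ^ (-(k : ℤ))) ((ef S)^[r * k] x) := by
    intro k
    induction k with
    | zero => intro x; simp
    | succ k ih =>
      intro x
      rw [Function.iterate_succ_apply, ih]
      show (S ^ (-(k : ℤ))) ((ef S)^[r * k] (S⁻¹ ((ef S)^[r] x))) = _
      have h1 : S⁻¹ ((ef S)^[r] x) = (S ^ (-1 : ℤ)) ((ef S)^[r] x) := by rw [zpow_neg_one]
      rw [h1, ef_iter_zpow, ← MulAut.mul_apply, ← zpow_add, ← Function.iterate_add_apply]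
      congr 2
      push_cast
      ring
  -- the affine count
  obtain ⟨m, t, hm, ht⟩ := hA a' u0 (by
    apply Subtype.ext
    rw [ha', haz]
    simp) (by
    intro i x
    apply Subtype.ext
    rw [ha', haψ i x]
    have k1 := hψS i (a' x) (a x) (by
      rw [ha', MulAut.apply_inv_self])
    rw [k1, MulAut.inv_apply_self])
  have hm0 : 0 < m := by
    rcases Nat.eq_zero_or_pos m with h | h
    · exact absurd (h ▸ dvd_zero p) hm
    · exact h
  set n₁ : N := φ^[t] 1 with hn₁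
  have hper : φ^[m * p ^ μ] n₁ = n₁ := by
    have h1 := ht 1
    rw [Nat.add_comm, Function.iterate_add_apply] at h1
    exact h1
  set K := m * p ^ μ with hK
  have hK0 : 0 < K := Nat.mul_pos hm0 (pow_pos hp.pos _)
  set x : B := (n₁ : B) * ξ with hx
  have hper0 : (ef S)^[r * K] x = (S ^ (K : ℤ)) x := by
    have h1 := hΦφk K n₁
    rw [hper, ← hx, hΦk] at h1
    have h2 := congrArg (S ^ (K : ℤ)) h1
    rw [← MulAut.mul_apply, ← zpow_add, add_neg_cancel, zpow_zero] at h2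
    exact h2
  have hper1 : (ef S)^[r * K * p] x = x := by
    rw [ef_iter_mul S _ _ x hper0]
    have h3 : ((K : ℤ) * (p : ℤ)) = ((p ^ (μ + 1) * m : ℕ) : ℤ) := by
      rw [hK]
      push_cast
      ring
    rw [h3, zpow_natCast, pow_mul, hSp, one_pow]
    rfl
  have hfd : (ef S)^[d] x = x := hL.periodic (Nat.mul_pos (Nat.mul_pos hr hK0) hp.pos) hper1
  -- exponents
  have hd0 : d ≠ 0 := by rintro rfl; exact hnd (dvd_zero _)
  obtain ⟨w, r', hr', hdw⟩ := Nat.exists_eq_pow_mul_and_not_dvd hd0 p hp.ne_one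
  have hwμ : w ≤ μ := by
    by_contra hcon
    push Not at hcon
    exact hnd (hdw ▸ Dvd.dvd.mul_right (pow_dvd_pow p hcon) r')
  have hdd : d ∣ r * K * r' := by
    have h1 : d ∣ p ^ μ * r' := hdw ▸ Nat.mul_dvd_mul_right (pow_dvd_pow p hwμ) r'
    have h2 : r * K * r' = (r * m) * (p ^ μ * r') := by rw [hK]; ring
    rw [h2]
    exact Dvd.dvd.mul_left h1 _
  have hfk : (ef S)^[r * K * r'] x = x := by
    obtain ⟨k', hk'⟩ := hdd
    rw [hk', Function.iterate_mul]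
    exact Function.iterate_fixed hfd k'
  rw [ef_iter_mul S _ _ x hper0] at hfk
  have h3 : ((K : ℤ) * (r' : ℤ)) = ((p ^ μ * (m * r') : ℕ) : ℤ) := by
    rw [hK]
    push_cast
    ring
  rw [h3, zpow_natCast] at hfk
  refine hfix n₁ n₁.2 (m * r') ?_ hfk
  intro h
  rcases hp.dvd_mul.1 h with h | h
  · exact hm h
  · exact hr' h

end Pool.ENR
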