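import Pool.Agent.H29.ENR.Stmts11

/-!
Row BR2 of board enr (MP_d15c96_al): braid pairs (copy of BRD by helper48, without oddness).
-/

set_option autoImplicit false

namespace Pool.ENR

open Pool.Agent.H81.ENG

theorem br2_thm : BR2Stmt := by
  intro T _ _ a b hbr hc d hd
  have hconj : b⁻¹ * a * b = a * b * a⁻¹ := by
    have h1 : b⁻¹ * a * b * a = a * b := by
      calc b⁻¹ * a * b * a = b⁻¹ * (a * b * a) := by group
        _ = b⁻¹ * (b * a * b) := by rw [hbr]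
        _ = a * b := by group
    calc b⁻¹ * a * b = (b⁻¹ * a * b * a) * a⁻¹ := by group
      _ = a * b * a⁻¹ := by rw [h1]
  set s : MulAut T := MulAut.conj a⁻¹ with hs
  have hsn : ∀ (n : ℕ) (x : T), (s ^ (n : ℤ)) x = (a ^ n)⁻¹ * x * a ^ n := by
    intro n x
    rw [zpow_natCast, hs, ← map_pow, MulAut.conj_apply, inv_pow, inv_inv]
  have h1 : (ef s)^[1] (b⁻¹ * a) = (s ^ (2 : ℤ)) (b⁻¹ * a) := by
    have h2 := hsn 2 (b⁻¹ * a)
    rw [show ((2 : ℕ) : ℤ) = 2 from rfl] at h2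
    rw [h2, Function.iterate_one]
    unfold ef
    rw [hs, MulAut.conj_apply, inv_inv]
    calc (b⁻¹ * a)⁻¹ * (a⁻¹ * (b⁻¹ * a) * a)
        = a⁻¹ * (a⁻¹ * (a * b * a⁻¹) * b⁻¹) * (a * a) := by
          simp only [mul_inv_rev, inv_inv, mul_assoc, inv_mul_cancel_left]
      _ = a⁻¹ * (a⁻¹ * (b⁻¹ * a * b) * b⁻¹) * (a * a) := by rw [hconj]
      _ = (a ^ 2)⁻¹ * (b⁻¹ * a) * a ^ 2 := by
          simp only [pow_two, mul_inv_rev, inv_inv, mul_assoc, mul_inv_cancel_left]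
  have hit := ef_iter_mul s 2 1 (b⁻¹ * a) h1
  have hper : (ef s)^[orderOf a] (b⁻¹ * a) = b⁻¹ * a := by
    have h3 := hit (orderOf a)
    rw [one_mul] at h3
    rw [h3]
    have h4 : (2 : ℤ) * (orderOf a : ℤ) = ((2 * orderOf a : ℕ) : ℤ) := by push_cast; ring
    rw [h4, hsn, mul_comm 2, pow_mul, pow_orderOf_eq_one]
    simp
  have hd1 := (hd.sl a).1.periodic (orderOf_pos a) hper
  have h5 := hit d
  rw [one_mul, ← hs] at *
  rw [hd1] at h5
  have h4 : (2 : ℤ) * (d : ℤ) = ((2 * d : ℕ) : ℤ) := by push_cast; ring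
  rw [h4, hsn] at h5
  have h6 : a ^ (2 * d) * (b⁻¹ * a) = (b⁻¹ * a) * a ^ (2 * d) := by
    calc a ^ (2 * d) * (b⁻¹ * a)
        = a ^ (2 * d) * ((a ^ (2 * d))⁻¹ * (b⁻¹ * a) * a ^ (2 * d)) := by rw [← h5]
      _ = (b⁻¹ * a) * a ^ (2 * d) := by group
  have h7 : a ^ (2 * d) * b⁻¹ = b⁻¹ * a ^ (2 * d) := by
    have h8 : a ^ (2 * d) * b⁻¹ * a = b⁻¹ * a ^ (2 * d) * a := by
      calc a ^ (2 * d) * b⁻¹ * a = a ^ (2 * d) * (b⁻¹ * a) := by group
        _ = (b⁻¹ * a) * a ^ (2 * d) := h6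
        _ = b⁻¹ * (a * a ^ (2 * d)) := by group
        _ = b⁻¹ * (a ^ (2 * d) * a) := by rw [← pow_succ', ← pow_succ]
        _ = b⁻¹ * a ^ (2 * d) * a := by group
    exact mul_right_cancel h8
  have h9 : a ^ (2 * d) * b = b * a ^ (2 * d) := by
    calc a ^ (2 * d) * b = b * (b⁻¹ * a ^ (2 * d)) * b := by group
      _ = b * (a ^ (2 * d) * b⁻¹) * b := by rw [h7]
      _ = b * a ^ (2 * d) := by group
  exact hc (2 * d) h9

end Pool.ENR
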