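import Pool.Agent.H29.ENR.Stmts

/-!
Row CAL of board enr: alternating groups have the component property.
-/

set_option autoImplicit false

namespace Pool.ENR

open Pool.Agent.H81.ENG

theorem cal_thm : CALStmt := by
  intro p n hp h5 h6 G _ _ S Ψ y N d v hy hSs hSc hSD hL hv t ht
  refine comp_case (fun q hq hq5 => Pool.ENG81.comb q hq hq5) y hp hy S hSs ?_ hSD h5 ?_ Ψ
    (hL.sl y) hv t ht
  · exact hSc
  · intro φ hφ
    by_cases hp2 : p = 2
    · exact Pool.ENG81.aut_alt h5 (h6 hp2) φ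
    · exact Pool.ENG81.aut_alt_odd h5 φ ((hp.odd_of_ne_two hp2).pow) hφ

end Pool.ENR
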